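import Mathlib
import Pool.Agent.H412R2.Tree

/-!
The backward tree of `8` under the `3x+1` map: every node of size `s` has total stopping time
exactly `s + 3`, and the size of the node is known up to a factor `n + 1`.
-/

set_option autoImplicit false

namespace Pool.Agent.H395R2.G3

open Finset Pool.Agent.H412R2

/-- the `3x+1` function -/
def fT (m : ℕ) : ℕ := if m % 2 = 0 then m / 2 else (3 * m + 1) / 2

theorem fT_double (m : ℕ) : fT (2 * m) = m := by
  unfold fT
  rw [if_pos (by omega)]
  omega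

theorem fT_iter_pow (e x : ℕ) : fT^[e] (2 ^ e * x) = x := by
  induction e with
  | zero => simp
  | succ e ih =>
    rw [Function.iterate_succ_apply]
    have h : 2 ^ (e + 1) * x = 2 * (2 ^ e * x) := by ring
    rw [h, fT_double, ih]

/-- one letter -/
theorem fT_letter {e x b : ℕ} (he : 1 ≤ e) (hb : 3 * b + 1 = 2 ^ e * x) : fT^[e] b = x := by
  obtain ⟨e', rfl⟩ : ∃ e', e = e' + 1 := ⟨e - 1, by omega⟩
  rw [Function.iterate_succ_apply]
  have h1 : 2 ^ (e' + 1) * x = 2 * (2 ^ e' * x) := by ring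
  rw [h1] at hb
  have h2 : fT b = 2 ^ e' * x := by
    unfold fT
    rw [if_neg (by omega)]
    omega
  rw [h2, fT_iter_pow]

theorem iter_eight (j : ℕ) (hj : 1 ≤ j) : fT^[j] 8 = 4 ∨ fT^[j] 8 = 2 ∨ fT^[j] 8 = 1 := by
  induction j with
  | zero => omega
  | succ j ih =>
    rw [Function.iterate_succ_apply']
    rcases Nat.eq_zero_or_pos j with rfl | hj'
    · left
      decide
    · rcases ih hj' with h | h | h
      · right; left
        rw [h]
        decide
      · right; right
        rw [h]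
        decide
      · right; left
        rw [h]
        decide

theorem hit_unique_aux {y k k' : ℕ} (h : fT^[k] y = 8) (h' : fT^[k'] y = 8) (hlt : k < k') :
    False := by
  obtain ⟨j, rfl⟩ : ∃ j, k' = j + k := ⟨k' - k, by omega⟩
  rw [Function.iterate_add_apply, h] at h'
  rcases iter_eight j (by omega) with h1 | h1 | h1 <;> omega

theorem hit_unique {y k k' : ℕ} (h : fT^[k] y = 8) (h' : fT^[k'] y = 8) : k = k' := by
  rcases lt_trichotomy k k' with hlt | heq | hgt
  · exact (hit_unique_aux h h' hlt).elim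
  · exact heq
  · exact (hit_unique_aux h' h hgt).elim

theorem iter_one (j : ℕ) : fT^[j] 1 = 1 ∨ fT^[j] 1 = 2 := by
  induction j with
  | zero => left; rfl
  | succ j ih =>
    rw [Function.iterate_succ_apply']
    rcases ih with h | h
    · right
      rw [h]
      decide
    · left
      rw [h]
      decide

/-- the total stopping time of a node above `8` -/
theorem least_of_eight {y s : ℕ} (h : fT^[s] y = 8) : IsLeast {k : ℕ | fT^[k] y = 1} (s + 3) := by
  constructor
  · change fT^[s + 3] y = 1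
    rw [add_comm, Function.iterate_add_apply, h]
    decide
  · intro k hk
    have hk' : fT^[k] y = 1 := hk
    by_contra hlt
    have hlt' : k < s + 3 := not_le.1 hlt
    rcases le_or_gt k s with h1 | h1
    · obtain ⟨j, rfl⟩ : ∃ j, s = j + k := ⟨s - k, by omega⟩
      rw [Function.iterate_add_apply, hk'] at h
      rcases iter_one j with h2 | h2 <;> omega
    · obtain ⟨j, rfl⟩ : ∃ j, k = j + s := ⟨k - s, by omega⟩
      rw [Function.iterate_add_apply, h] at hk'
      have h3 : j = 1 ∨ j = 2 := by omega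
      rcases h3 with rfl | rfl
      · revert hk'
        decide
      · revert hk'
        decide

/-- the nodes of the tree above a positive integer: exact number of steps, and product formula -/
theorem tr_nodes {E : ℕ} (n : ℕ) : ∀ (s m x : ℕ) (z : ℤ), 1 ≤ x → fT^[m] x = 8 →
    z ∈ tr 3 E n s (x : ℤ) →
    ∃ y : ℕ, z = (y : ℤ) ∧ 1 ≤ y ∧ fT^[m + s] y = 8 ∧
      ∃ S : Finset ℕ, S.card = n ∧ (∀ b ∈ S, 1 ≤ b ∧ ∃ k, m < k ∧ fT^[k] b = 8) ∧
        (2 : ℝ) ^ s * x = 3 ^ n * y * ∏ b ∈ S, (1 + 1 / (3 * (b : ℝ))) := by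
  induction n with
  | zero =>
    intro s m x z hx hm hz
    rw [mem_tr_zero] at hz
    obtain ⟨rfl, rfl⟩ := hz
    exact ⟨x, rfl, hx, by simpa using hm, ∅, by simp, by simp, by simp⟩
  | succ n ih =>
    intro s m x z hx hm hz
    obtain ⟨e, b, he1, _, he3, hb, hz'⟩ := (mem_tr_succ (by norm_num)).1 hz
    push_cast at hb
    have hb1 : 1 ≤ b := by
      obtain ⟨e', rfl⟩ : ∃ e', e = e' + 1 := ⟨e - 1, by omega⟩
      have h1 : (2 : ℤ) ^ (e' + 1) * x = 2 * (2 ^ e' * x) := by ring
      have hpos : (1 : ℤ) ≤ 2 ^ e' * (x : ℤ) := by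
        have h3 : (1 : ℤ) ≤ 2 ^ e' := one_le_pow₀ (by norm_num)
        have h4 : (1 : ℤ) ≤ (x : ℤ) := by exact_mod_cast hx
        nlinarith
      rw [h1] at hb
      omega
    obtain ⟨b', rfl⟩ : ∃ b' : ℕ, b = (b' : ℤ) := ⟨b.toNat, by omega⟩
    have hbn : 3 * b' + 1 = 2 ^ e * x := by exact_mod_cast hb
    have hb1' : 1 ≤ b' := by exact_mod_cast hb1
    have hit : fT^[m + e] b' = 8 := by
      rw [Function.iterate_add_apply, fT_letter he1 hbn, hm]
    obtain ⟨y, hy, hy1, hy2, S, hS1, hS2, hS3⟩ := ih (s - e) (m + e) b' z hb1' hit hz'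
    have hnot : b' ∉ S := by
      intro hmem
      obtain ⟨_, k, hk, hk'⟩ := hS2 b' hmem
      have := hit_unique hit hk'
      omega
    refine ⟨y, hy, hy1, ?_, insert b' S, ?_, ?_, ?_⟩
    · rw [show m + s = m + e + (s - e) by omega]
      exact hy2
    · rw [Finset.card_insert_of_notMem hnot, hS1]
    · intro c hc
      rw [Finset.mem_insert] at hc
      rcases hc with rfl | hc
      · exact ⟨hb1', m + e, by omega, hit⟩
      · obtain ⟨h1, k, hk, hk'⟩ := hS2 c hc
        exact ⟨h1, k, by omega, hk'⟩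
    · rw [Finset.prod_insert hnot]
      have hbr : (3 : ℝ) * b' + 1 = 2 ^ e * x := by exact_mod_cast hbn
      have hb0 : (0 : ℝ) < b' := by exact_mod_cast hb1'
      have h2s : (2 : ℝ) ^ s = 2 ^ (s - e) * 2 ^ e := by
        rw [← pow_add]
        congr 1
        omega
      have h3 : (1 + 1 / (3 * (b' : ℝ))) = (2 ^ e * x) / (3 * b') := by
        rw [← hbr]
        field_simp
      rw [h2s, h3]
      calc (2 : ℝ) ^ (s - e) * 2 ^ e * x = (2 ^ (s - e) * b') * (2 ^ e * x) / b' := by
            field_simp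
        _ = (3 ^ n * y * ∏ b ∈ S, (1 + 1 / (3 * (b : ℝ)))) * (2 ^ e * x) / b' := by rw [hS3]
        _ = 3 ^ (n + 1) * y * ((2 ^ e * x) / (3 * b') * ∏ b ∈ S, (1 + 1 / (3 * (b : ℝ)))) := by
            field_simp
            ring

/-- a product over `n` distinct positive integers -/
theorem prod_le (n : ℕ) : ∀ S : Finset ℕ, S.card = n → (∀ b ∈ S, 1 ≤ b) →
    ∏ b ∈ S, (1 + 1 / (3 * (b : ℝ))) ≤ n + 1 := by
  induction n with
  | zero =>
    intro S hS _
    rw [Finset.card_eq_zero] at hS
    subst hS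
    simp
  | succ n ih =>
    intro S hS h1
    have hne : S.Nonempty := by
      rw [← Finset.card_pos]
      omega
    have hm := Finset.max'_mem S hne
    set M := S.max' hne with hM
    have hMn : n + 1 ≤ M := by
      have hsub : S ⊆ Finset.Icc 1 M := by
        intro b hb
        rw [Finset.mem_Icc]
        exact ⟨h1 b hb, Finset.le_max' S b hb⟩
      have := Finset.card_le_card hsub
      rw [Nat.card_Icc, hS] at this
      omega
    rw [← Finset.mul_prod_erase S _ hm]
    have h2 := ih (S.erase M) (by rw [Finset.card_erase_of_mem hm, hS]; omega)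
      (fun b hb => h1 b (Finset.mem_of_mem_erase hb))
    have hM0 : (0 : ℝ) < M := by
      have : 0 < M := by omega
      exact_mod_cast this
    have h3 : (1 + 1 / (3 * (M : ℝ))) ≤ (n + 2) / (n + 1) := by
      have h4 : (n : ℝ) + 1 ≤ M := by exact_mod_cast hMn
      have h5 : 1 / (3 * (M : ℝ)) ≤ 1 / (n + 1) := by
        apply one_div_le_one_div_of_le (by positivity)
        linarith
      have h6 : ((n : ℝ) + 2) / (n + 1) = 1 + 1 / (n + 1) := by
        field_simp
        ring
      rw [h6]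
      linarith
    calc (1 + 1 / (3 * (M : ℝ))) * ∏ b ∈ S.erase M, (1 + 1 / (3 * (b : ℝ)))
        ≤ (n + 2) / (n + 1) * (n + 1) := by
          apply mul_le_mul h3 h2 _ (by positivity)
          apply Finset.prod_nonneg
          intro b _
          positivity
      _ = ((n + 1 : ℕ) : ℝ) + 1 := by
          have : (n : ℝ) + 1 ≠ 0 := by positivity
          field_simp
          push_cast
          ring

/-- summary for the tree of `8` -/
theorem tr_eight {E n s : ℕ} {z : ℤ} (hz : z ∈ tr 3 E n s 8) :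
    ∃ y : ℕ, z = (y : ℤ) ∧ 1 ≤ y ∧ IsLeast {k : ℕ | fT^[k] y = 1} (s + 3) ∧
      (3 : ℝ) ^ n * y ≤ 2 ^ s * 8 ∧ (2 : ℝ) ^ s * 8 ≤ 3 ^ n * y * (n + 1) := by
  obtain ⟨y, hy, hy1, hy2, S, hS1, hS2, hS3⟩ :=
    tr_nodes (E := E) n s 0 8 z (by norm_num) rfl (by exact_mod_cast hz)
  rw [zero_add] at hy2
  refine ⟨y, hy, hy1, least_of_eight hy2, ?_, ?_⟩
  · push_cast at hS3
    rw [hS3]
    have hp : (1 : ℝ) ≤ ∏ b ∈ S, (1 + 1 / (3 * (b : ℝ))) := by
      calc (1 : ℝ) = ∏ b ∈ S, 1 := by simp
        _ ≤ ∏ b ∈ S, (1 + 1 / (3 * (b : ℝ))) := by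
            apply Finset.prod_le_prod
            · intro b _
              norm_num
            · intro b _
              have : (0 : ℝ) ≤ 1 / (3 * (b : ℝ)) := by positivity
              linarith
    have h0 : (0 : ℝ) ≤ 3 ^ n * y := by positivity
    nlinarith
  · push_cast at hS3
    rw [hS3]
    apply mul_le_mul_of_nonneg_left _ (by positivity)
    exact prod_le n S hS1 (fun b hb => (hS2 b hb).1)

end Pool.Agent.H395R2.G3
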