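import Pool.Agent.H395R2.G3.Lim
import Pool.Agent.H395R2.G3.Tree8
import Pool.Agent.H422R2.QA.QAWords
import Pool.Agent.H422R2.QA.QAKer
import Pool.Agent.H422R2.QA.QAMain

/-! The lower half of the large deviation law for the total stopping time of the `3x+1` map. -/

set_option autoImplicit false

namespace Pool.Agent.H395R2.G3

open Finset Filter Pool.Agent.H422R2.QA Pool.Agent.H412R2


/-- growth of the tree of `8` -/
theorem words {r : ℝ} (h0 : 0 < r) (h1 : r < 1) (hF : 0 < FF r) {δ : ℝ} (hδ : 0 < δ) :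
    ∃ E n₀ : ℕ, ∀ n : ℕ, n₀ ≤ n → ∃ s : ℕ, |(s : ℝ) - n / r| ≤ δ * n ∧
      Real.exp ((FF r / r - δ) * n) ≤ ((tr 3 E n s 8).card : ℝ) := by
  have hFr : 0 < FF r / r := div_pos hF h0
  obtain ⟨E, hE, ha, hG⟩ := exists_cap h0 h1 (δ := min (δ / 2) (FF r / r / 2))
    (lt_min (by positivity) (by positivity))
  have ha' := ha.trans (min_le_left _ _)
  have hG' := hG.trans (min_le_left _ _)
  have hG'' := hG.trans (min_le_right _ _)
  have hGpos : 0 < Gz 3 (1 - r) E := by
    have := (abs_le.1 hG'').1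
    linarith
  have hPr := main (q := 3) Nat.prime_three (by norm_num) prim_three (E := E) (m := 3) (C := 16)
    (by omega) (conn_three hE) (z := 1 - r) (by linarith) hGpos
  obtain ⟨n₀, hn₀⟩ := hPr (δ / 2) (by positivity)
  refine ⟨E, n₀, fun n hn => ?_⟩
  obtain ⟨s, hs1, hs2⟩ := hn₀ n hn 8 (by norm_num)
  have hn' : (0 : ℝ) ≤ n := Nat.cast_nonneg _
  refine ⟨s, ?_, ?_⟩
  · have h2 : (s : ℝ) - n / r = (s - az (1 - r) E * n) + (az (1 - r) E - 1 / r) * n := by ring
    rw [h2]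
    calc |(s - az (1 - r) E * n) + (az (1 - r) E - 1 / r) * n|
        ≤ |s - az (1 - r) E * n| + |(az (1 - r) E - 1 / r) * n| := abs_add_le _ _
      _ ≤ δ / 2 * n + δ / 2 * n := by
          apply add_le_add hs1
          rw [abs_mul, abs_of_nonneg hn']
          exact mul_le_mul_of_nonneg_right ha' hn'
      _ = δ * n := by ring
  · have h2 : (Nq 3 E n s 8 : ℝ) ≤ ((tr 3 E n s 8).card : ℝ) := by
      rw [Nq_eq Nat.prime_three (by norm_num)]
      exact_mod_cast Finset.card_filter_le _ _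
    refine le_trans (Real.exp_le_exp.2 ?_) (hs2.trans h2)
    have := (abs_le.1 hG').1
    apply mul_le_mul_of_nonneg_right _ hn'
    linarith

/-- `log (n+1)` is smaller than any linear function -/
theorem log_small {c : ℝ} (hc : 0 < c) (K : ℝ) :
    ∃ n₁ : ℕ, ∀ n : ℕ, n₁ ≤ n → K + Real.log (n + 1) ≤ c * n := by
  obtain ⟨n₁, hn₁⟩ := exists_nat_ge ((K + c / 2 - 1 - Real.log (c / 2)) / (c / 2))
  refine ⟨n₁, fun n hn => ?_⟩
  have hn' : (n₁ : ℝ) ≤ n := by exact_mod_cast hn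
  have h1 : K + c / 2 - 1 - Real.log (c / 2) ≤ c / 2 * n := by
    rw [div_le_iff₀ (by positivity)] at hn₁
    nlinarith
  have h2 := Real.log_le_sub_one_of_pos (show 0 < c / 2 * ((n : ℝ) + 1) by positivity)
  rw [Real.log_mul (by positivity) (by positivity)] at h2
  linarith

/-- the set counted in the large deviation law -/
def SetLD (α ε x : ℝ) : Set ℕ :=
  {m : ℕ | 2 ≤ m ∧ (m : ℝ) ≤ x ∧
    ∃ k : ℕ, IsLeast {k : ℕ | fT^[k] m = 1} k ∧ |(k : ℝ) / Real.log m - α| ≤ ε}

theorem SetLD_finite (α ε x : ℝ) : (SetLD α ε x).Finite := by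
  apply (Set.finite_Iic ⌊x⌋₊).subset
  rintro m ⟨_, hm, _⟩
  exact Nat.le_floor hm

/-- the real inequality behind `mem_SetLD` -/
theorem ratio_close {α r δ ε l2 l8 ln Y S n d lam : ℝ} (hα : 0 < α) (hr : 0 < r) (hε : 0 < ε)
    (hS : S = n / r + d) (hn : 0 ≤ n) (hδ0 : 0 ≤ δ) (hl8 : 0 ≤ l8) (hln : 0 ≤ ln)
    (hd1 : -(δ * n) ≤ d) (hd2 : d ≤ δ * n) (hl2 : 0 < l2) (hl2' : l2 < 1)
    (hαl : α * (lam * n) = n / r) (hαl2 : 1 ≤ α * l2)
    (hY1 : Y ≤ lam * n + d * l2 + l8) (hY2 : lam * n + d * l2 + l8 - ln ≤ Y)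
    (hn2 : 3 + α * l8 + (α + ε) * ln ≤ ε * lam / 2 * n)
    (hδα : δ * n * α ≤ ε * lam / 4 * n) (hεδ : ε * (δ * n) ≤ ε * (lam / 4 * n)) :
    (-ε + α) * Y ≤ S + 3 ∧ S + 3 ≤ (α + ε) * Y := by
  have hdn : 0 ≤ δ * n := by positivity
  have hαε : 0 < α + ε := by linarith
  have hdl1 : d * l2 ≤ δ * n := by
    have h1 : d * l2 ≤ δ * n * l2 := mul_le_mul_of_nonneg_right hd2 hl2.le
    have h2 : δ * n * l2 ≤ δ * n * 1 := mul_le_mul_of_nonneg_left hl2'.le hdn
    linarith
  have hdl2 : -(δ * n) ≤ d * l2 := by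
    have h1 : -(δ * n) * l2 ≤ d * l2 := mul_le_mul_of_nonneg_right hd1 hl2.le
    have h2 : δ * n * l2 ≤ δ * n * 1 := mul_le_mul_of_nonneg_left hl2'.le hdn
    linarith
  have hαl1 : α * l2 - 1 ≤ α := by
    have : α * l2 ≤ α * 1 := mul_le_mul_of_nonneg_left hl2'.le hα.le
    linarith
  have h8 : δ * n * (α * l2 - 1) ≤ δ * n * α := mul_le_mul_of_nonneg_left hαl1 hdn
  have h4 : ε * (-(δ * n)) ≤ ε * (d * l2) := mul_le_mul_of_nonneg_left hdl2 hε.le
  have h5 : 0 ≤ ε * l8 := by positivity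
  have h5' : 0 ≤ α * l8 := by positivity
  have h9 : 0 ≤ α * ln := by positivity
  have h10 : 0 ≤ ε * ln := by positivity
  subst hS
  constructor
  · have h2 : α * Y ≤ α * (lam * n + d * l2 + l8) := mul_le_mul_of_nonneg_left hY1 hα.le
    have h3 : ε * (lam * n + d * l2 + l8 - ln) ≤ ε * Y := mul_le_mul_of_nonneg_left hY2 hε.le
    have h6 : d * (α * l2 - 1) ≤ δ * n * (α * l2 - 1) :=
      mul_le_mul_of_nonneg_right hd2 (by linarith)
    linarith
  · have h2 : (α + ε) * (lam * n + d * l2 + l8 - ln) ≤ (α + ε) * Y :=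
      mul_le_mul_of_nonneg_left hY2 hαε.le
    have h7 : -(δ * n) * (α * l2 - 1) ≤ d * (α * l2 - 1) :=
      mul_le_mul_of_nonneg_right hd1 (by linarith)
    linarith

/-- logarithms of the size of a node -/
theorem log_node {α r : ℝ} (hα : 0 < α) (hr : 0 < r)
    (hrel : 1 / α = Real.log 2 - r * Real.log 3) {n s y : ℕ} (hy1 : 1 ≤ y)
    (hup : (3 : ℝ) ^ n * y ≤ 2 ^ s * 8) (hlow : (2 : ℝ) ^ s * 8 ≤ 3 ^ n * y * (n + 1)) :
    Real.log y ≤ 1 / (α * r) * n + ((s : ℝ) - n / r) * Real.log 2 + Real.log 8 ∧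
    1 / (α * r) * n + ((s : ℝ) - n / r) * Real.log 2 + Real.log 8 - Real.log (n + 1) ≤
      Real.log y := by
  have hy0 : (0 : ℝ) < y := by exact_mod_cast hy1
  have hlog1 : (n : ℝ) * Real.log 3 + Real.log y ≤ s * Real.log 2 + Real.log 8 := by
    have := Real.log_le_log (by positivity) hup
    rwa [Real.log_mul (by positivity) (by positivity), Real.log_mul (by positivity) (by positivity),
      Real.log_pow, Real.log_pow] at this
  have hlog2 : (s : ℝ) * Real.log 2 + Real.log 8 ≤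
      n * Real.log 3 + Real.log y + Real.log (n + 1) := by
    have := Real.log_le_log (by positivity) hlow
    rwa [Real.log_mul (by positivity) (by positivity), Real.log_mul (by positivity) (by positivity),
      Real.log_mul (by positivity) (by positivity), Real.log_pow, Real.log_pow] at this
  have hmain : (n : ℝ) / r * Real.log 2 - n * Real.log 3 = 1 / (α * r) * n := by
    have h1 : Real.log 2 = 1 / α + r * Real.log 3 := by linarith
    rw [h1]
    field_simp
    ring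
  constructor
  · linarith
  · linarith

/-- nodes of the tree of `8` belong to the set -/
theorem mem_SetLD {α r δ ε : ℝ} (hα : 0 < α) (hr : 0 < r) (hε : 0 < ε)
    (hrel : 1 / α = Real.log 2 - r * Real.log 3)
    {n s E : ℕ} {z : ℤ} (hz : z ∈ tr 3 E n s 8) (hs : |(s : ℝ) - n / r| ≤ δ * n)
    (hδ0 : 0 ≤ δ) (hδ1 : δ ≤ 1 / (α * r) / 4) (hδ2 : δ * α ≤ ε * (1 / (α * r)) / 4)
    (hn1 : (0 : ℝ) + Real.log (n + 1) ≤ 1 / (α * r) / 4 * n) (hn0 : 1 ≤ n)
    (hn2 : (3 + α * Real.log 8) / (α + ε) + Real.log (n + 1) ≤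
      ε * (1 / (α * r)) / 2 / (α + ε) * n) {x : ℝ} (hx0 : 0 < x)
    (hx : (1 / (α * r) + δ) * n + Real.log 8 ≤ Real.log x) :
    0 ≤ z ∧ z.toNat ∈ SetLD α ε x := by
  obtain ⟨y, rfl, hy1, hleast, hup, hlow⟩ := tr_eight hz
  refine ⟨by positivity, ?_⟩
  rw [Int.toNat_natCast]
  obtain ⟨hY1, hY2⟩ := log_node hα hr hrel hy1 hup hlow
  have hr3 : 0 < r * Real.log 3 := mul_pos hr (Real.log_pos (by norm_num))
  have hlam0 : 0 < 1 / (α * r) := by positivity
  have hαl' : ∀ t : ℝ, α * (1 / (α * r) * t) = t / r := by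
    intro t
    field_simp
  generalize 1 / (α * r) = lam at *
  have hl2 : 0 < Real.log 2 := Real.log_pos (by norm_num)
  have hl2' : Real.log 2 < 1 := by
    have := Real.log_two_lt_d9
    norm_num at *
    linarith
  have hn' : (1 : ℝ) ≤ n := by exact_mod_cast hn0
  have hy0 : (0 : ℝ) < y := by exact_mod_cast hy1
  obtain ⟨hd1, hd2⟩ := abs_le.1 hs
  have hl8 : 0 ≤ Real.log 8 := Real.log_nonneg (by norm_num)
  have hln : 0 ≤ Real.log ((n : ℝ) + 1) := Real.log_nonneg (by linarith)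
  have hdn : 0 ≤ δ * n := by positivity
  have h1 : δ * n ≤ lam / 4 * n := mul_le_mul_of_nonneg_right hδ1 (by linarith)
  have hdl : δ * n * Real.log 2 ≤ δ * n * 1 := mul_le_mul_of_nonneg_left hl2'.le hdn
  have hdl1 : ((s : ℝ) - n / r) * Real.log 2 ≤ δ * n * Real.log 2 :=
    mul_le_mul_of_nonneg_right hd2 hl2.le
  have hdl2 : -(δ * n) * Real.log 2 ≤ ((s : ℝ) - n / r) * Real.log 2 :=
    mul_le_mul_of_nonneg_right hd1 hl2.le
  have hpos : lam * n / 2 ≤ Real.log y := by linarith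
  have hpos' : 0 < Real.log y := lt_of_lt_of_le (by positivity) hpos
  have hy2 : 2 ≤ y := by
    by_contra h
    have : y = 1 := by omega
    rw [this] at hpos'
    simp at hpos'
  have hαε : 0 < α + ε := by linarith
  have hn2' : 3 + α * Real.log 8 + (α + ε) * Real.log (n + 1) ≤ ε * lam / 2 * n := by
    have h1 := mul_le_mul_of_nonneg_left hn2 hαε.le
    have e1 : (α + ε) * ((3 + α * Real.log 8) / (α + ε) + Real.log (n + 1)) =
        3 + α * Real.log 8 + (α + ε) * Real.log (n + 1) := by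
      field_simp
    have e2 : (α + ε) * (ε * lam / 2 / (α + ε) * n) = ε * lam / 2 * n := by
      field_simp
    rw [e1, e2] at h1
    exact h1
  have hαl2 : 1 ≤ α * Real.log 2 := by
    have h2 : 1 / α ≤ Real.log 2 := by linarith
    rw [div_le_iff₀ hα] at h2
    linarith
  have hδα : δ * n * α ≤ ε * lam / 4 * n := by
    have := mul_le_mul_of_nonneg_right hδ2 (show (0 : ℝ) ≤ n by linarith)
    linarith
  have hεδ : ε * (δ * n) ≤ ε * (lam / 4 * n) := mul_le_mul_of_nonneg_left h1 hε.le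
  obtain ⟨hr1, hr2⟩ := ratio_close (S := (s : ℝ)) (d := (s : ℝ) - n / r) hα hr hε (by ring)
    (by linarith) hδ0 hl8 hln hd1 hd2 hl2 hl2' (hαl' n) hαl2 hY1 hY2 hn2' hδα hεδ
  refine ⟨hy2, ?_, s + 3, hleast, ?_⟩
  · rw [← Real.log_le_log_iff hy0 hx0]
    linarith
  · rw [abs_le]
    push_cast
    constructor
    · rw [neg_le_sub_iff_le_add, ← sub_le_iff_le_add, le_div_iff₀ hpos']
      linarith
    · rw [sub_le_iff_le_add, div_le_iff₀ hpos']
      linarith

/-- the lower half of the large deviation law -/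
theorem count {α : ℝ} (hα : 1 / Real.log 2 < α) (hF : 0 < FF (rr α)) {ε : ℝ} (hε : 0 < ε) :
    ∃ X₀ : ℝ, ∀ x : ℝ, X₀ ≤ x →
      x ^ (1 - α * rate (1 / α) - ε) ≤ ((SetLD α ε x).ncard : ℝ) := by
  have hl2 : 0 < Real.log 2 := Real.log_pos (by norm_num)
  have hα0 : 0 < α := lt_trans (by positivity) hα
  set r := rr α with hr
  have hr0 : 0 < r := rr_pos hα
  have hr1 : r < 1 := rr_lt_one hα0
  rw [expo_eq hα, ← hr]
  set lam : ℝ := 1 / (α * r) with hlam
  have hlam0 : 0 < lam := by positivity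
  have he1 : α * FF r ≤ 1 := by
    have h1 := expo_eq hα
    rw [← hr] at h1
    rw [← h1]
    have h2 : 0 ≤ α * rate (1 / α) := by
      rw [rr_spec α, ← hr, rate_eq hr0 hr1]
      have := Real.binEntropy_le_log_two (p := r)
      apply mul_nonneg hα0.le
      linarith
    linarith
  set e : ℝ := α * FF r with he
  have he0 : 0 < e := by positivity
  have hFe : FF r / r = e * lam := by
    rw [he, hlam]
    field_simp
  -- choice of δ
  set δ : ℝ := min (lam / 4) (min (ε * lam / 4 / α) (ε * lam / 4)) with hδ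
  have hδ0 : 0 < δ := lt_min (by positivity) (lt_min (by positivity) (by positivity))
  have hδ1 : δ ≤ lam / 4 := min_le_left _ _
  have hδ2 : δ * α ≤ ε * lam / 4 := by
    have h1 : δ ≤ ε * lam / 4 / α := (min_le_right _ _).trans (min_le_left _ _)
    rwa [le_div_iff₀ hα0] at h1
  have hδ3 : δ ≤ ε * lam / 4 := (min_le_right _ _).trans (min_le_right _ _)
  obtain ⟨E, n₀, hwords⟩ := words hr0 hr1 hF hδ0
  obtain ⟨n₁, hn₁⟩ := log_small (show 0 < lam / 4 by positivity) 0
  obtain ⟨n₂, hn₂⟩ := log_small (show 0 < ε * lam / 2 / (α + ε) by positivity)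
    ((3 + α * Real.log 8) / (α + ε))
  set N : ℕ := max 1 (max n₀ (max n₁ n₂)) with hN
  set L₀ : ℝ := max ((lam + δ) * (N + 1) + Real.log 8) (2 * (Real.log 8 + lam + δ) / ε) with hL₀
  refine ⟨Real.exp L₀, fun x hx => ?_⟩
  have hx0 : 0 < x := lt_of_lt_of_le (Real.exp_pos _) hx
  have hL : L₀ ≤ Real.log x := by
    rw [Real.le_log_iff_exp_le hx0]
    exact hx
  have hL1 := (le_max_left _ _).trans hL
  have hL2 := (le_max_right _ _).trans hL
  have hld : 0 < lam + δ := by positivity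
  set n : ℕ := ⌊(Real.log x - Real.log 8) / (lam + δ)⌋₊ with hn
  have hq0 : 0 ≤ (Real.log x - Real.log 8) / (lam + δ) := by
    apply div_nonneg _ hld.le
    have : 0 ≤ (lam + δ) * (N + 1) := by positivity
    linarith
  have hnle : (n : ℝ) * (lam + δ) ≤ Real.log x - Real.log 8 := by
    rw [← le_div_iff₀ hld]
    exact Nat.floor_le hq0
  have hnge : Real.log x - Real.log 8 < (n + 1) * (lam + δ) := by
    rw [← div_lt_iff₀ hld]
    exact Nat.lt_floor_add_one _
  have hNn : N ≤ n := by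
    have h1 : ((N : ℝ) + 1) * (lam + δ) < (n + 1) * (lam + δ) := by linarith
    have h2 : (N : ℝ) + 1 < n + 1 := lt_of_mul_lt_mul_right h1 hld.le
    have h3 : (N : ℝ) < n := by linarith
    exact_mod_cast h3.le
  have hn0 : 1 ≤ n := (le_max_left _ _).trans hNn
  have hn00 : n₀ ≤ n := ((le_max_left _ _).trans (le_max_right _ _)).trans hNn
  have hn01 : n₁ ≤ n := (((le_max_left _ _).trans (le_max_right _ _)).trans (le_max_right _ _)).trans hNn
  have hn02 : n₂ ≤ n := (((le_max_right _ _).trans (le_max_right _ _)).trans (le_max_right _ _)).trans hNn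
  obtain ⟨s, hs1, hs2⟩ := hwords n hn00
  -- the injection
  have hmem : ∀ z ∈ tr 3 E n s 8, 0 ≤ z ∧ z.toNat ∈ SetLD α ε x := by
    intro z hz
    exact mem_SetLD hα0 hr0 hε (rr_spec α) hz hs1 hδ0.le hδ1 hδ2 (hn₁ n hn01) hn0 (hn₂ n hn02) hx0
      (by linarith)
  have hcard : (tr 3 E n s 8).card ≤ (SetLD α ε x).ncard := by
    have himg : ((tr 3 E n s 8).image Int.toNat).card = (tr 3 E n s 8).card := by
      apply Finset.card_image_of_injOn
      intro z hz w hw h
      have h1 := (hmem z hz).1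
      have h2 := (hmem w hw).1
      have h3 : z.toNat = w.toNat := h
      omega
    rw [← himg, ← Set.ncard_coe_finset]
    apply Set.ncard_le_ncard _ (SetLD_finite α ε x)
    intro m hm
    rw [Finset.mem_coe, Finset.mem_image] at hm
    obtain ⟨z, hz, rfl⟩ := hm
    exact (hmem z hz).2
  have hcard' : ((tr 3 E n s 8).card : ℝ) ≤ ((SetLD α ε x).ncard : ℝ) := by exact_mod_cast hcard
  refine le_trans ?_ (hs2.trans hcard')
  rw [Real.rpow_def_of_pos hx0]
  apply Real.exp_le_exp.2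
  rw [hFe]
  -- (e - ε) log x ≤ (e λ - δ) n
  have hlogx : 0 < Real.log x := by
    have h1 : 0 ≤ (lam + δ) * (N + 1) := by positivity
    have h2 : 0 < Real.log 8 := Real.log_pos (by norm_num)
    linarith
  have hnlam : (n : ℝ) * lam ≤ Real.log x := by
    have h1 : 0 ≤ (n : ℝ) * δ := by positivity
    have h2 : 0 < Real.log 8 := Real.log_pos (by norm_num)
    nlinarith
  have h2δ : 2 * δ * n ≤ ε / 2 * Real.log x := by
    have h1 : 2 * δ * n ≤ 2 * (ε * lam / 4) * n := by gcongr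
    have h2 : 2 * (ε * lam / 4) * n = ε / 2 * (n * lam) := by ring
    rw [h2] at h1
    exact h1.trans (mul_le_mul_of_nonneg_left hnlam (by positivity))
  have h3 : Real.log 8 + lam + δ ≤ ε / 2 * Real.log x := by
    rw [div_le_iff₀ hε] at hL2
    linarith
  have h4 : e * (Real.log x - Real.log 8 - (lam + δ)) ≤ e * (n * (lam + δ)) := by
    apply mul_le_mul_of_nonneg_left _ he0.le
    linarith
  have h5 : e * (Real.log 8 + lam + δ) ≤ 1 * (ε / 2 * Real.log x) := by
    apply mul_le_mul he1 h3 _ (by norm_num)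
    have : 0 < Real.log 8 := Real.log_pos (by norm_num)
    positivity
  have h6 : e * (δ * n) ≤ 1 * (δ * n) := mul_le_mul_of_nonneg_right he1 (by positivity)
  nlinarith

end Pool.Agent.H395R2.G3
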