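import Pool.Agent.H395R2.G3.Rate
import Pool.Agent.H422R2.QA.QADefs

/-! Limits of the capped tilt quantities as the cap goes to infinity. -/

set_option autoImplicit false

namespace Pool.Agent.H395R2.G3

open Finset Filter Pool.Agent.H422R2.QA
open scoped Topology

theorem sum_Icc_one (f : ℕ → ℝ) (E : ℕ) :
    ∑ e ∈ Icc 1 E, f e = (∑ e ∈ range (E + 1), f e) - f 0 := by
  induction E with
  | zero => simp
  | succ E ih =>
    rw [Finset.sum_Icc_succ_top (by omega), ih, Finset.sum_range_succ _ (E + 1)]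
    ring

theorem sum_Icc_tendsto {f : ℕ → ℝ} {S : ℝ} (h : HasSum f S) :
    Tendsto (fun E : ℕ => ∑ e ∈ Icc 1 E, f e) atTop (𝓝 (S - f 0)) := by
  simp_rw [sum_Icc_one f]
  exact ((tendsto_add_atTop_iff_nat 1).2 h.tendsto_sum_nat).sub_const _

theorem Az_tendsto {z : ℝ} (h0 : 0 < z) (h1 : z < 1) :
    Tendsto (fun E : ℕ => Az z E) atTop (𝓝 (z / (1 - z))) := by
  have h2 := sum_Icc_tendsto (hasSum_geometric_of_lt_one h0.le h1)
  have h3 : (1 - z)⁻¹ - z ^ 0 = z / (1 - z) := by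
    have : 1 - z ≠ 0 := by linarith
    field_simp
    ring
  rw [h3] at h2
  exact h2

theorem az_tendsto {z : ℝ} (h0 : 0 < z) (h1 : z < 1) :
    Tendsto (fun E : ℕ => az z E) atTop (𝓝 (1 / (1 - z))) := by
  have hz1 : 1 - z ≠ 0 := by linarith
  have h2 := sum_Icc_tendsto (hasSum_coe_mul_geometric_of_norm_lt_one
    (show ‖z‖ < 1 by rw [Real.norm_eq_abs, abs_of_pos h0]; exact h1))
  have h3 : z / (1 - z) ^ 2 - ((0 : ℕ) : ℝ) * z ^ 0 = z / (1 - z) ^ 2 := by simp
  rw [h3] at h2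
  have h4 := h2.div (Az_tendsto h0 h1) (by
    apply div_ne_zero h0.ne' hz1)
  have h5 : z / (1 - z) ^ 2 / (z / (1 - z)) = 1 / (1 - z) := by
    field_simp
  rw [h5] at h4
  refine h4.congr ?_
  intro E
  unfold az uz
  rw [Pi.div_apply, Finset.sum_div]
  apply Finset.sum_congr rfl
  intro e _
  rw [mul_div_assoc]

theorem Gz_tendsto {z : ℝ} (h0 : 0 < z) (h1 : z < 1) (q : ℕ) :
    Tendsto (fun E : ℕ => Gz q z E) atTop
      (𝓝 (Real.log (z / (1 - z)) - 1 / (1 - z) * Real.log z - Real.log q)) := by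
  have hz1 : 0 < 1 - z := by linarith
  have h2 := (Az_tendsto h0 h1).log (div_pos h0 hz1).ne'
  have h3 := (az_tendsto h0 h1).mul_const (Real.log z)
  exact (h2.sub h3).sub_const _

/-- for the odd frequency `r`, caps with almost the right mean letter and growth rate -/
theorem exists_cap {r : ℝ} (h0 : 0 < r) (h1 : r < 1) {δ : ℝ} (hδ : 0 < δ) :
    ∃ E : ℕ, 16 ≤ E ∧ |az (1 - r) E - 1 / r| ≤ δ ∧ |Gz 3 (1 - r) E - FF r / r| ≤ δ := by
  have h1r : 0 < 1 - r := by linarith
  have ha := az_tendsto h1r (show 1 - r < 1 by linarith)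
  have hG := Gz_tendsto h1r (show 1 - r < 1 by linarith) 3
  have e1 : 1 - (1 - r) = r := by ring
  have e2 : Real.log ((1 - r) / (1 - (1 - r))) - 1 / (1 - (1 - r)) * Real.log (1 - r) -
      Real.log (3 : ℕ) = FF r / r := by
    rw [e1, Real.log_div h1r.ne' h0.ne']
    unfold FF Real.binEntropy
    rw [Real.log_inv, Real.log_inv]
    push_cast
    field_simp
    ring
  rw [e1] at ha
  rw [e2] at hG
  have ha' := Metric.tendsto_atTop.1 ha δ hδ
  have hG' := Metric.tendsto_atTop.1 hG δ hδ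
  obtain ⟨E1, hE1⟩ := ha'
  obtain ⟨E2, hE2⟩ := hG'
  refine ⟨max 16 (max E1 E2), le_max_left _ _, ?_, ?_⟩
  · have := hE1 (max 16 (max E1 E2)) (le_trans (le_max_left _ _) (le_max_right _ _))
    rw [Real.dist_eq] at this
    exact this.le
  · have := hE2 (max 16 (max E1 E2)) (le_trans (le_max_right _ _) (le_max_right _ _))
    rw [Real.dist_eq] at this
    exact this.le

end Pool.Agent.H395R2.G3
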