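import Pool.Agent.H395R2.G3.Count

/-! The lower half of the conjecture on the scaled stopping time constant. -/

set_option autoImplicit false

namespace Pool.Agent.H395R2.G3

open Finset Filter

theorem mu_gt : 1 / Real.log 2 < ((1 / 2) * Real.log (4 / 3))⁻¹ := by
  have hl2 : 0 < Real.log 2 := Real.log_pos (by norm_num)
  have l2a := Real.log_two_gt_d9
  have l3b := Real.log_three_lt_d9
  have h23 : Real.log 2 < Real.log 3 := Real.log_lt_log (by norm_num) (by norm_num)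
  have h43 : Real.log (4 / 3) = 2 * Real.log 2 - Real.log 3 := by
    rw [Real.log_div (by norm_num) (by norm_num), show (4 : ℝ) = 2 ^ 2 by norm_num, Real.log_pow]
    norm_num
  have hd43 : 0 < 2 * Real.log 2 - Real.log 3 := by
    norm_num at *
    linarith
  have hμ : ((1 / 2) * Real.log (4 / 3))⁻¹ = 2 / (2 * Real.log 2 - Real.log 3) := by
    rw [h43, mul_inv, one_div, inv_inv, div_eq_mul_inv]
  rw [hμ, div_lt_div_iff₀ hl2 hd43]
  linarith

/-- from the counts to infinitely many `n` -/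
theorem exists_large {α : ℝ} (hα : 1 / Real.log 2 < α) (hF : 0 < FF (rr α)) {ε : ℝ} (hε : 0 < ε)
    (N : ℕ) : ∃ n : ℕ, N ≤ n ∧ 2 ≤ n ∧ ∃ k : ℕ, IsLeast {k : ℕ | fT^[k] n = 1} k ∧
      |(k : ℝ) / Real.log n - α| ≤ ε := by
  have hl2 : 0 < Real.log 2 := Real.log_pos (by norm_num)
  have hα0 : 0 < α := lt_trans (by positivity) hα
  have he : 0 < 1 - α * rate (1 / α) := by
    rw [expo_eq hα]
    positivity
  set e := 1 - α * rate (1 / α) with hedef
  set ε' : ℝ := min (e / 2) ε with hε'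
  have hε'0 : 0 < ε' := lt_min (by positivity) hε
  obtain ⟨X₀, hX₀⟩ := count hα hF hε'0
  have hexp : 0 < e - ε' := by
    have := min_le_left (e / 2) ε
    linarith
  have htend := tendsto_rpow_atTop hexp
  obtain ⟨x, hx1, hx2⟩ := ((htend.eventually_gt_atTop (N : ℝ)).and
    (eventually_ge_atTop X₀)).exists
  have h1 := hX₀ x hx2
  have h2 : (N : ℝ) < ((SetLD α ε' x).ncard : ℝ) := lt_of_lt_of_le hx1 h1
  have h3 : N < (SetLD α ε' x).ncard := by exact_mod_cast h2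
  have h4 : ∃ m ∈ SetLD α ε' x, N ≤ m := by
    by_contra hcon
    push Not at hcon
    have hsub : SetLD α ε' x ⊆ ((Finset.range N : Finset ℕ) : Set ℕ) := by
      intro m hm
      rw [Finset.mem_coe, Finset.mem_range]
      exact hcon m hm
    have := Set.ncard_le_ncard hsub (Finset.finite_toSet _)
    rw [Set.ncard_coe_finset, Finset.card_range] at this
    omega
  obtain ⟨m, ⟨hm2, _, k, hk1, hk2⟩, hmN⟩ := h4
  exact ⟨m, hmN, hm2, k, hk1, hk2.trans (min_le_right _ _)⟩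

/-- everything about the constant -/
theorem main_gamma : ∃ γ₀ : ℝ, (41.6776 < γ₀ ∧ γ₀ < 41.6777) ∧
    (γ₀ > ((1 / 2) * Real.log (4 / 3))⁻¹ ∧ γ₀ * rate (1 / γ₀) = 1) ∧
    (∀ γ : ℝ, γ > ((1 / 2) * Real.log (4 / 3))⁻¹ → γ * rate (1 / γ) = 1 → γ = γ₀) ∧
    (∀ ε : ℝ, ε > 0 → ∀ N : ℕ, ∃ n : ℕ, N ≤ n ∧ 2 ≤ n ∧ ∃ k : ℕ,
      IsLeast {k : ℕ | fT^[k] n = 1} k ∧ (γ₀ - ε) * Real.log n ≤ k) ∧
    (∀ α : ℝ, 1 / Real.log 2 < α → α < γ₀ → 0 < 1 - α * rate (1 / α) ∧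
      ∀ ε : ℝ, 0 < ε → ∃ X₀ : ℝ, ∀ x : ℝ, X₀ ≤ x →
        x ^ (1 - α * rate (1 / α) - ε) ≤ ((SetLD α ε x).ncard : ℝ)) := by
  have hl2 : 0 < Real.log 2 := Real.log_pos (by norm_num)
  obtain ⟨γ₀, hnum, hγ, huniq, hpos⟩ := exists_gamma
  refine ⟨γ₀, hnum, hγ, huniq, ?_, ?_⟩
  · intro ε hε N
    have hγ1 : 1 / Real.log 2 < γ₀ := mu_gt.trans hγ.1
    set α : ℝ := max (γ₀ - ε / 2) ((1 / Real.log 2 + γ₀) / 2) with hα
    have hα1 : 1 / Real.log 2 < α := lt_of_lt_of_le (by linarith) (le_max_right _ _)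
    have hα2 : α < γ₀ := max_lt (by linarith) (by linarith)
    obtain ⟨n, hn, hn2, k, hk1, hk2⟩ := exists_large hα1 (hpos α hα1 hα2)
      (show 0 < ε / 2 by positivity) N
    refine ⟨n, hn, hn2, k, hk1, ?_⟩
    have hlog : 0 < Real.log n := Real.log_pos (by exact_mod_cast hn2)
    have h1 := (abs_le.1 hk2).1
    have h2 : γ₀ - ε ≤ (k : ℝ) / Real.log n := by
      have := le_max_left (γ₀ - ε / 2) ((1 / Real.log 2 + γ₀) / 2)
      linarith
    rwa [le_div_iff₀ hlog] at h2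
  · intro α hα1 hα2
    refine ⟨?_, fun ε hε => count hα1 (hpos α hα1 hα2) hε⟩
    rw [expo_eq hα1]
    have hα0 : 0 < α := lt_trans (by positivity) hα1
    have := hpos α hα1 hα2
    positivity

end Pool.Agent.H395R2.G3
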