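import Mathlib

/-!
The constant of the repeated random walk model of the `3x+1` map: existence, uniqueness, numerical
value, and the rate function in terms of the binary entropy.
-/

set_option autoImplicit false

namespace Pool.Agent.H395R2.G3

open Real

/-- the Legendre transform of `log (½ (2^θ + (2/3)^θ))` -/
noncomputable def rate (a : ℝ) : ℝ :=
  ⨆ θ : ℝ, (θ * a - Real.log ((1 / 2) * ((2 : ℝ) ^ θ + (2 / 3 : ℝ) ^ θ)))

theorem two_thirds_rpow (θ : ℝ) : (2 / 3 : ℝ) ^ θ = Real.exp (θ * (Real.log 2 - Real.log 3)) := by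
  rw [Real.rpow_def_of_pos (by norm_num), Real.log_div (by norm_num) (by norm_num), mul_comm]

theorem two_rpow (θ : ℝ) : (2 : ℝ) ^ θ = Real.exp (θ * Real.log 2) := by
  rw [Real.rpow_def_of_pos (by norm_num), mul_comm]

/-- upper bound of every term -/
theorem term_le {r : ℝ} (h0 : 0 < r) (h1 : r < 1) (θ : ℝ) :
    θ * (Real.log 2 - r * Real.log 3) - Real.log ((1 / 2) * ((2 : ℝ) ^ θ + (2 / 3 : ℝ) ^ θ)) ≤
      Real.log 2 - Real.binEntropy r := by
  have h2 : 0 < (2 : ℝ) ^ θ := by positivity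
  have h3 : 0 < (2 / 3 : ℝ) ^ θ := by positivity
  have h1r : 0 < 1 - r := by linarith
  have hconc := strictConcaveOn_log_Ioi.concaveOn.2
    (show ((2 : ℝ) ^ θ / (1 - r)) ∈ Set.Ioi (0 : ℝ) from div_pos h2 h1r)
    (show ((2 / 3 : ℝ) ^ θ / r) ∈ Set.Ioi (0 : ℝ) from div_pos h3 h0)
    h1r.le h0.le (by ring)
  simp only [smul_eq_mul] at hconc
  have e1 : (1 - r) * ((2 : ℝ) ^ θ / (1 - r)) + r * ((2 / 3 : ℝ) ^ θ / r) =
      (2 : ℝ) ^ θ + (2 / 3 : ℝ) ^ θ := by
    field_simp
  rw [e1, Real.log_div h2.ne' h1r.ne', Real.log_div h3.ne' h0.ne'] at hconc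
  rw [two_rpow, two_thirds_rpow, Real.log_exp, Real.log_exp] at hconc
  rw [Real.log_mul (by norm_num) (by positivity), Real.log_div (by norm_num) (by norm_num),
    Real.log_one, two_rpow, two_thirds_rpow, Real.binEntropy]
  rw [Real.log_inv, Real.log_inv]
  linarith

/-- the term where the supremum is attained -/
theorem term_eq {r : ℝ} (h0 : 0 < r) (h1 : r < 1) :
    ∃ θ : ℝ, θ * (Real.log 2 - r * Real.log 3) -
      Real.log ((1 / 2) * ((2 : ℝ) ^ θ + (2 / 3 : ℝ) ^ θ)) = Real.log 2 - Real.binEntropy r := by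
  have h1r : 0 < 1 - r := by linarith
  have hl3 : 0 < Real.log 3 := Real.log_pos (by norm_num)
  refine ⟨(Real.log (1 - r) - Real.log r) / Real.log 3, ?_⟩
  set θ : ℝ := (Real.log (1 - r) - Real.log r) / Real.log 3 with hθ
  have hθ3 : θ * Real.log 3 = Real.log (1 - r) - Real.log r := by
    rw [hθ]
    field_simp
  have e1 : (2 : ℝ) ^ θ + (2 / 3 : ℝ) ^ θ = Real.exp (θ * Real.log 2) / (1 - r) := by
    rw [two_rpow, two_thirds_rpow, mul_sub, Real.exp_sub, hθ3, Real.exp_sub, Real.exp_log h1r,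
      Real.exp_log h0]
    field_simp
    ring
  rw [e1, Real.log_mul (by norm_num) (by positivity), Real.log_div (by norm_num) (by norm_num),
    Real.log_one, Real.log_div (by positivity) h1r.ne', Real.log_exp, Real.binEntropy,
    Real.log_inv, Real.log_inv]
  have : θ * (Real.log 2 - r * Real.log 3) = θ * Real.log 2 - r * (θ * Real.log 3) := by ring
  rw [this, hθ3]
  ring

theorem rate_eq {r : ℝ} (h0 : 0 < r) (h1 : r < 1) :
    rate (Real.log 2 - r * Real.log 3) = Real.log 2 - Real.binEntropy r := by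
  unfold rate
  apply le_antisymm
  · exact ciSup_le (term_le h0 h1)
  · obtain ⟨θ, hθ⟩ := term_eq h0 h1
    rw [← hθ]
    exact le_ciSup (f := fun θ : ℝ => θ * (Real.log 2 - r * Real.log 3) -
      Real.log ((1 / 2) * ((2 : ℝ) ^ θ + (2 / 3 : ℝ) ^ θ)))
      ⟨Real.log 2 - Real.binEntropy r, by
        rintro _ ⟨θ', rfl⟩
        exact term_le h0 h1 θ'⟩ θ

/-- the odd frequency attached to `α` -/
noncomputable def rr (α : ℝ) : ℝ := (Real.log 2 - 1 / α) / Real.log 3

theorem rr_spec (α : ℝ) : 1 / α = Real.log 2 - rr α * Real.log 3 := by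
  have hl3 : 0 < Real.log 3 := Real.log_pos (by norm_num)
  unfold rr
  field_simp
  ring

theorem rr_pos {α : ℝ} (h : 1 / Real.log 2 < α) : 0 < rr α := by
  have hl3 : 0 < Real.log 3 := Real.log_pos (by norm_num)
  have hl2 : 0 < Real.log 2 := Real.log_pos (by norm_num)
  have hα : 0 < α := lt_trans (by positivity) h
  unfold rr
  apply div_pos _ hl3
  have : 1 / α < Real.log 2 := by
    rw [div_lt_iff₀ hα]
    rw [div_lt_iff₀ hl2] at h
    linarith
  linarith

theorem rr_lt_one {α : ℝ} (hα : 0 < α) : rr α < 1 := by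
  have hl3 : 0 < Real.log 3 := Real.log_pos (by norm_num)
  have h23 : Real.log 2 < Real.log 3 := Real.log_lt_log (by norm_num) (by norm_num)
  unfold rr
  rw [div_lt_one hl3]
  have : 0 < 1 / α := by positivity
  linarith

/-- the function whose root is the critical odd frequency -/
noncomputable def FF (r : ℝ) : ℝ := Real.binEntropy r - r * Real.log 3

theorem expo_eq {α : ℝ} (h : 1 / Real.log 2 < α) : 1 - α * rate (1 / α) = α * FF (rr α) := by
  have hl2 : 0 < Real.log 2 := Real.log_pos (by norm_num)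
  have hα : 0 < α := lt_trans (by positivity) h
  rw [rr_spec α, rate_eq (rr_pos h) (rr_lt_one hα)]
  unfold FF
  have h1 : α * (1 / α) = 1 := by field_simp
  rw [rr_spec α] at h1
  nlinarith

theorem FF_cont : Continuous FF := by
  unfold FF
  fun_prop

theorem FF_zero : FF 0 = 0 := by
  simp [FF]

/-- strict concavity -/
theorem FF_pos_of {r r' : ℝ} (h0 : 0 < r) (h1 : r < r') (h2 : r' ≤ 1) (h : 0 ≤ FF r') : 0 < FF r := by
  have hr' : 0 < r' := h0.trans h1
  have ht0 : 0 < r / r' := div_pos h0 hr'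
  have ht1 : r / r' < 1 := (div_lt_one hr').2 h1
  have hc := Real.strictConcave_binEntropy.2 (show (0 : ℝ) ∈ Set.Icc (0 : ℝ) 1 by simp)
    (show r' ∈ Set.Icc (0 : ℝ) 1 from ⟨hr'.le, h2⟩) hr'.ne
    (show 0 < 1 - r / r' by linarith) ht0 (by ring)
  simp only [smul_eq_mul, mul_zero, zero_add, Real.binEntropy_zero] at hc
  have e1 : r / r' * r' = r := by field_simp
  rw [e1] at hc
  unfold FF at h ⊢
  have h3 : r / r' * (Real.binEntropy r' - r' * Real.log 3) ≥ 0 := by positivity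
  have h4 : r / r' * (r' * Real.log 3) = r * Real.log 3 := by
    rw [← mul_assoc, e1]
  nlinarith

theorem FF_rational (p q : ℕ) (hp : 0 < p) (hq : p < q) :
    (q : ℝ) * FF ((p : ℝ) / q) = Real.log (((q ^ q : ℕ) : ℝ)) -
      Real.log (((p ^ p * (q - p) ^ (q - p) * 3 ^ p : ℕ) : ℝ)) := by
  have hp0 : (0 : ℝ) < p := by exact_mod_cast hp
  have hq0 : (0 : ℝ) < q := by exact_mod_cast (hp.trans hq)
  have hqp : (0 : ℝ) < (q : ℝ) - p := by
    have : (p : ℝ) < q := by exact_mod_cast hq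
    linarith
  have hcast : ((q - p : ℕ) : ℝ) = (q : ℝ) - p := by
    rw [Nat.cast_sub hq.le]
  unfold FF Real.binEntropy
  have e1 : (1 : ℝ) - p / q = (q - p) / q := by
    field_simp
  rw [e1, Real.log_inv, Real.log_inv, Real.log_div hp0.ne' hq0.ne', Real.log_div hqp.ne' hq0.ne']
  push_cast
  rw [hcast, Real.log_mul (by positivity) (by positivity), Real.log_mul (by positivity) (by positivity),
    Real.log_pow, Real.log_pow, Real.log_pow, Real.log_pow, hcast]
  field_simp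
  ring

theorem FF_low : 0 < FF (4771 / 7833) := by
  have h := FF_rational 4771 7833 (by norm_num) (by norm_num)
  have h2 : 4771 ^ 4771 * (7833 - 4771) ^ (7833 - 4771) * 3 ^ 4771 < 7833 ^ 7833 := by
    decide +kernel
  have h3 : (0 : ℝ) < ((4771 ^ 4771 * (7833 - 4771) ^ (7833 - 4771) * 3 ^ 4771 : ℕ) : ℝ) := by
    exact_mod_cast (by positivity : 0 < 4771 ^ 4771 * (7833 - 4771) ^ (7833 - 4771) * 3 ^ 4771)
  have h4 := Real.log_lt_log h3 (Nat.cast_lt.2 h2)
  have h5 : (0 : ℝ) < (7833 : ℕ) * FF ((4771 : ℕ) / (7833 : ℕ)) := by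
    rw [h]
    linarith
  have h6 : (0 : ℝ) < ((7833 : ℕ) : ℝ) := by norm_num
  have h7 := (mul_pos_iff_of_pos_left h6).1 h5
  exact_mod_cast h7

theorem FF_high : FF (4905 / 8053) < 0 := by
  have h := FF_rational 4905 8053 (by norm_num) (by norm_num)
  have h2 : 8053 ^ 8053 < 4905 ^ 4905 * (8053 - 4905) ^ (8053 - 4905) * 3 ^ 4905 := by
    decide +kernel
  have h3 : (0 : ℝ) < ((8053 ^ 8053 : ℕ) : ℝ) := by
    exact_mod_cast (by positivity : 0 < 8053 ^ 8053)
  have h4 := Real.log_lt_log h3 (Nat.cast_lt.2 h2)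
  have h5 : ((8053 : ℕ) : ℝ) * FF ((4905 : ℕ) / (8053 : ℕ)) < 0 := by
    rw [h]
    linarith
  have h6 : (0 : ℝ) < ((8053 : ℕ) : ℝ) := by norm_num
  have h7 : FF ((4905 : ℕ) / (8053 : ℕ)) < 0 := by
    by_contra hc
    have := mul_nonneg h6.le (not_lt.1 hc)
    linarith
  exact_mod_cast h7

/-- a root of `FF` in `(0,1]` is unique -/
theorem FF_root_unique {r r' : ℝ} (h0 : 0 < r) (h0' : 0 < r') (h1 : r ≤ 1) (h1' : r' ≤ 1)
    (h : FF r = 0) (h' : FF r' = 0) : r = r' := by
  rcases lt_trichotomy r r' with hlt | heq | hgt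
  · have := FF_pos_of h0 hlt h1' h'.ge
    linarith
  · exact heq
  · have := FF_pos_of h0' hgt h1 h.ge
    linarith

/-- existence, uniqueness and value of the constant `γ_RRW` -/
theorem exists_gamma : ∃ γ₀ : ℝ, (41.6776 < γ₀ ∧ γ₀ < 41.6777) ∧
    (γ₀ > ((1 / 2) * Real.log (4 / 3))⁻¹ ∧ γ₀ * rate (1 / γ₀) = 1) ∧
    (∀ γ : ℝ, γ > ((1 / 2) * Real.log (4 / 3))⁻¹ → γ * rate (1 / γ) = 1 → γ = γ₀) ∧
    (∀ α : ℝ, 1 / Real.log 2 < α → α < γ₀ → 0 < FF (rr α)) := by
  have hl2 : 0 < Real.log 2 := Real.log_pos (by norm_num)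
  have hl3 : 0 < Real.log 3 := Real.log_pos (by norm_num)
  have l2a := Real.log_two_gt_d9
  have l2b := Real.log_two_lt_d9
  have l3a := Real.log_three_gt_d9
  have l3b := Real.log_three_lt_d9
  have hivt := intermediate_value_Icc' (show (4771 / 7833 : ℝ) ≤ 4905 / 8053 by norm_num)
    FF_cont.continuousOn
  obtain ⟨r₀, ⟨hr1, hr2⟩, hr0⟩ := hivt (show (0 : ℝ) ∈ Set.Icc _ _ from ⟨FF_high.le, FF_low.le⟩)
  have hD : 0 < Real.log 2 - r₀ * Real.log 3 := by
    have h1 : r₀ * Real.log 3 ≤ 4905 / 8053 * Real.log 3 := mul_le_mul_of_nonneg_right hr2 hl3.le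
    norm_num at *
    linarith
  set γ₀ : ℝ := 1 / (Real.log 2 - r₀ * Real.log 3) with hγ
  have hγ0 : 0 < γ₀ := by positivity
  have hinv : 1 / γ₀ = Real.log 2 - r₀ * Real.log 3 := by
    rw [hγ, one_div_one_div]
  have hrr : rr γ₀ = r₀ := by
    unfold rr
    rw [hinv]
    field_simp
    ring
  have hlow : 41.6776 < γ₀ := by
    rw [hγ, lt_div_iff₀ hD]
    have h1 : 4771 / 7833 * Real.log 3 ≤ r₀ * Real.log 3 := mul_le_mul_of_nonneg_right hr1 hl3.le
    norm_num at *
    linarith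
  have hhigh : γ₀ < 41.6777 := by
    rw [hγ, div_lt_iff₀ hD]
    have h1 : r₀ * Real.log 3 ≤ 4905 / 8053 * Real.log 3 := mul_le_mul_of_nonneg_right hr2 hl3.le
    norm_num at *
    linarith
  have h43 : Real.log (4 / 3) = 2 * Real.log 2 - Real.log 3 := by
    rw [Real.log_div (by norm_num) (by norm_num), show (4 : ℝ) = 2 ^ 2 by norm_num, Real.log_pow]
    norm_num
  have hμ : ((1 / 2) * Real.log (4 / 3))⁻¹ = 2 / (2 * Real.log 2 - Real.log 3) := by
    rw [h43, mul_inv, one_div, inv_inv, div_eq_mul_inv]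
  have hd43 : 0 < 2 * Real.log 2 - Real.log 3 := by
    norm_num at *
    linarith
  have hμ7 : ((1 / 2) * Real.log (4 / 3))⁻¹ < 41 := by
    rw [hμ, div_lt_iff₀ hd43]
    norm_num at *
    linarith
  have hμ1 : 1 / Real.log 2 < ((1 / 2) * Real.log (4 / 3))⁻¹ := by
    rw [hμ, div_lt_div_iff₀ hl2 hd43]
    linarith
  refine ⟨γ₀, ⟨hlow, hhigh⟩, ⟨by norm_num at hlow; linarith, ?_⟩, ?_, ?_⟩
  · have h1 := expo_eq (α := γ₀) (by norm_num at hlow; linarith)
    rw [hrr, hr0] at h1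
    linarith
  · intro γ hγ1 hγ2
    have h1 := expo_eq (α := γ) (by linarith)
    rw [hγ2, sub_self] at h1
    have hγpos : 0 < γ := lt_trans (by positivity) (hμ1.trans hγ1)
    have h2 : FF (rr γ) = 0 := by
      rcases mul_eq_zero.1 h1.symm with h3 | h3
      · exact absurd h3 hγpos.ne'
      · exact h3
    have h3 : rr γ = r₀ := by
      apply FF_root_unique (rr_pos (by linarith)) (by linarith) (rr_lt_one hγpos).le (by linarith) h2 hr0
    have h4 := rr_spec γ
    rw [h3, ← hinv] at h4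
    have h5 : γ = γ₀ := by
      have := congrArg (fun t => 1 / t) h4
      simpa using this
    exact h5
  · intro α hα1 hα2
    have hα0 : 0 < α := lt_trans (by positivity) hα1
    have h1 : rr α < r₀ := by
      rw [← hrr]
      unfold rr
      apply div_lt_div_of_pos_right _ hl3
      have : 1 / γ₀ < 1 / α := one_div_lt_one_div_of_lt hα0 hα2
      linarith
    exact FF_pos_of (rr_pos hα1) h1 (by linarith) hr0.ge

end Pool.Agent.H395R2.G3
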